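import Pool.Agent.X10.Mult2

/-!
# The pair-sum collision statistics of multinomial coefficients grow superpolynomially

`C(n)`, `D(n)` and `μ(n)` grow faster than every power of `n`; so none of the three bounds
`C(n) = O(n² log n)`, `D(n) = O(n^(3/2) √(log n))`, `μ(n) = O(√(n log n))` of Q2 holds.

* `D(n + 5) ≥ M(n)`: if `G` is a product of factorials of weight `n`, then with
  `x = (n + 5)! / (12 G)` the numbers `x`, `2 x`, `3 x` are multinomial coefficients, and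
  `x + 3 x = 2 x + 2 x`.
* The multinomial coefficients with upper entry `n` contain a dilate of the set of all squarefree
  integers composed of primes `≤ √n`; pigeonhole among the sums of two products of `u` primes shows
  that `μ(n)` grows faster than every power.  As `M(n) ≥ μ(n)`, so do `D(n)` and `C(n)`.
-/

set_option autoImplicit false

open Filter Asymptotics

namespace Pool.Agent.Results.MP_675def_co.ScalesFail

open Pool.Agent.X10.Mult

/-- a sequence which grows faster than every power is not `O(g)` if `g` is at most cubic -/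
lemma not_isBigO {f : ℕ → ℕ} {g : ℕ → ℝ} (hf : ∀ K : ℕ, ∃ N : ℕ, ∀ n ≥ N, n ^ K ≤ f n)
    (hg : ∀ᶠ n : ℕ in atTop, |g n| ≤ (n : ℝ) ^ 3) :
    ¬ ((fun n : ℕ => (f n : ℝ)) =O[atTop] g) := by
  intro h
  obtain ⟨A, hA⟩ := h.bound
  obtain ⟨N, hN⟩ := hf 4
  obtain ⟨B, hB⟩ := exists_nat_gt (|A|)
  obtain ⟨n, ⟨h1, h2⟩, h3⟩ :=
    ((hA.and hg).and (eventually_ge_atTop (N + B + 1))).exists
  have hn0 : (0 : ℝ) < n := by exact_mod_cast (by omega : 0 < n)
  have h4 : ((n : ℝ)) ^ 4 ≤ (f n : ℝ) := by exact_mod_cast hN n (by omega)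
  have h5 : (f n : ℝ) ≤ A * |g n| := by
    rw [Real.norm_of_nonneg (Nat.cast_nonneg _), Real.norm_eq_abs] at h1
    exact h1
  have h6 : A * |g n| ≤ |A| * (n : ℝ) ^ 3 :=
    mul_le_mul (le_abs_self A) h2 (abs_nonneg _) (abs_nonneg _)
  have h7 : |A| < n := hB.trans_le (by exact_mod_cast (by omega : B ≤ n))
  have h8 : |A| * (n : ℝ) ^ 3 < n * (n : ℝ) ^ 3 := mul_lt_mul_of_pos_right h7 (by positivity)
  have h9 : (n : ℝ) * (n : ℝ) ^ 3 = (n : ℝ) ^ 4 := by ring
  linarith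

lemma log_le (n : ℕ) (hn : 1 ≤ n) : 0 ≤ Real.log n ∧ Real.log n ≤ n := by
  have h1 : (1 : ℝ) ≤ n := by exact_mod_cast hn
  exact ⟨Real.log_nonneg h1, (Real.log_le_sub_one_of_pos (by linarith)).trans (by linarith)⟩

/-- All three statistics grow faster than every power of `n`; none of the three upper bounds of Q2
holds. -/
theorem result :
    (∀ K : ℕ, ∃ N : ℕ, ∀ n ≥ N, n ^ K ≤ C n ∧ n ^ K ≤ D n ∧ n ^ K ≤ mu n) ∧
    ¬ ((fun n : ℕ => (C n : ℝ)) =O[atTop] fun n : ℕ => (n : ℝ) ^ 2 * Real.log n) ∧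
    ¬ ((fun n : ℕ => (D n : ℝ)) =O[atTop] fun n : ℕ => (n : ℝ) ^ (3 / 2 : ℝ) * √(Real.log n)) ∧
    ¬ ((fun n : ℕ => (mu n : ℝ)) =O[atTop] fun n : ℕ => √((n : ℝ) * Real.log n)) := by
  refine ⟨fun K => ?_, not_isBigO C_ge ?_, not_isBigO D_ge ?_, not_isBigO mu_ge ?_⟩
  · obtain ⟨N1, h1⟩ := C_ge K
    obtain ⟨N2, h2⟩ := D_ge K
    obtain ⟨N3, h3⟩ := mu_ge K
    exact ⟨N1 + N2 + N3, fun n hn => ⟨h1 n (by omega), h2 n (by omega), h3 n (by omega)⟩⟩
  · filter_upwards [eventually_ge_atTop 1] with n hn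
    obtain ⟨h1, h2⟩ := log_le n hn
    rw [abs_of_nonneg (by positivity)]
    calc (n : ℝ) ^ 2 * Real.log n ≤ (n : ℝ) ^ 2 * n := mul_le_mul_of_nonneg_left h2 (by positivity)
      _ = (n : ℝ) ^ 3 := by ring
  · filter_upwards [eventually_ge_atTop 1] with n hn
    obtain ⟨h1, h2⟩ := log_le n hn
    have hn1 : (1 : ℝ) ≤ n := by exact_mod_cast hn
    rw [abs_of_nonneg (by positivity)]
    have h3 : √(Real.log n) ≤ n := by
      rw [Real.sqrt_le_left (by linarith)]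
      nlinarith
    have h4 : (n : ℝ) ^ (3 / 2 : ℝ) ≤ (n : ℝ) ^ (2 : ℝ) :=
      Real.rpow_le_rpow_of_exponent_le hn1 (by norm_num)
    rw [Real.rpow_two] at h4
    calc (n : ℝ) ^ (3 / 2 : ℝ) * √(Real.log n) ≤ (n : ℝ) ^ 2 * n :=
          mul_le_mul h4 h3 (Real.sqrt_nonneg _) (by positivity)
      _ = (n : ℝ) ^ 3 := by ring
  · filter_upwards [eventually_ge_atTop 1] with n hn
    obtain ⟨h1, h2⟩ := log_le n hn
    have hn1 : (1 : ℝ) ≤ n := by exact_mod_cast hn
    rw [abs_of_nonneg (Real.sqrt_nonneg _), Real.sqrt_le_left (by positivity)]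
    calc (n : ℝ) * Real.log n ≤ n * n := mul_le_mul_of_nonneg_left h2 (by positivity)
      _ = (n : ℝ) ^ 2 := by ring
      _ ≤ (n : ℝ) ^ 6 := pow_le_pow_right₀ hn1 (by norm_num)
      _ = ((n : ℝ) ^ 3) ^ 2 := by ring

end Pool.Agent.Results.MP_675def_co.ScalesFail
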